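import Pool.Agent.H83.UE.Targets4
import Pool.Agent.H14.UDB.GNR

/-!
# Row ALG of board udb_modules: algebraic sets are cycles
-/

set_option autoImplicit false

open Polynomial MeasureTheory Filter Topology Set
open scoped OnePoint ComplexConjugate ComplexOrder Laplacian ENNReal Nat

namespace Pool.Agent.H7.UDB

open Pool.Agent.H83.UE

/-! ### The coefficients as polynomials -/

/-- the coefficients of `∏ (X - z_l)` as polynomials in `z` -/
noncomputable def cpol (k : ℕ) (i : Fin k) : MvPolynomial (Fin k) ℂ :=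
  (∏ l : Fin k, (X - C (MvPolynomial.X l)) : (MvPolynomial (Fin k) ℂ)[X]).coeff i

theorem eval_cpol {k : ℕ} (z : Fin k → ℂ) (i : Fin k) :
    MvPolynomial.eval z (cpol k i) = coef z i := by
  unfold cpol coef
  rw [← Polynomial.coeff_map, Polynomial.map_prod]
  congr 1
  refine Finset.prod_congr rfl fun l _ => ?_
  rw [Polynomial.map_sub, Polynomial.map_X, Polynomial.map_C, MvPolynomial.eval_X]

/-- the pull back of a form -/
noncomputable def pull {k : ℕ} (F : MvPolynomial (Fin (k + 1)) ℂ) : MvPolynomial (Fin k) ℂ :=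
  MvPolynomial.aeval (Fin.snoc (cpol k) 1 : Fin (k + 1) → MvPolynomial (Fin k) ℂ) F

theorem eval_pull {k : ℕ} (z : Fin k → ℂ) (F : MvPolynomial (Fin (k + 1)) ℂ) :
    MvPolynomial.eval z (pull F) =
      MvPolynomial.eval (Fin.snoc (coef z) 1 : Fin (k + 1) → ℂ) F := by
  unfold pull
  have h1 : MvPolynomial.eval z (MvPolynomial.aeval
      (Fin.snoc (cpol k) 1 : Fin (k + 1) → MvPolynomial (Fin k) ℂ) F) =
      (MvPolynomial.aeval z : MvPolynomial (Fin k) ℂ →ₐ[ℂ] ℂ) (MvPolynomial.aeval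
        (Fin.snoc (cpol k) 1 : Fin (k + 1) → MvPolynomial (Fin k) ℂ) F) := by
    rw [MvPolynomial.aeval_eq_eval]
  rw [h1, ← AlgHom.comp_apply, MvPolynomial.comp_aeval]
  have h2 : (fun i => (MvPolynomial.aeval z : MvPolynomial (Fin k) ℂ →ₐ[ℂ] ℂ)
      ((Fin.snoc (cpol k) 1 : Fin (k + 1) → MvPolynomial (Fin k) ℂ) i)) =
      (Fin.snoc (coef z) 1 : Fin (k + 1) → ℂ) := by
    funext i
    refine Fin.lastCases ?_ (fun i => ?_) i
    · rw [Fin.snoc_last, Fin.snoc_last, map_one]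
    · rw [Fin.snoc_castSucc, Fin.snoc_castSucc, MvPolynomial.aeval_eq_eval]
      exact eval_cpol z i
  rw [h2, MvPolynomial.aeval_eq_eval]

/-- the ideal of a set -/
def vid {k : ℕ} (V : Set (Fin k → ℂ)) : Ideal (MvPolynomial (Fin k) ℂ) where
  carrier := {F | ∀ z ∈ V, MvPolynomial.eval z F = 0}
  add_mem' := fun {F G} hF hG z hz => by rw [map_add, hF z hz, hG z hz, add_zero]
  zero_mem' := fun z _ => map_zero _
  smul_mem' := fun c F hF z hz => by rw [smul_eq_mul, map_mul, hF z hz, mul_zero]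

theorem mem_vid {k : ℕ} {V : Set (Fin k → ℂ)} {F : MvPolynomial (Fin k) ℂ} :
    F ∈ vid V ↔ ∀ z ∈ V, MvPolynomial.eval z F = 0 := Iff.rfl

theorem zero_vid {k : ℕ} (𝓕 : Set (MvPolynomial (Fin (k + 1)) ℂ)) :
    {z : Fin k → ℂ | ∀ F ∈ vid (coef ⁻¹' chart 𝓕), MvPolynomial.eval z F = 0} =
      coef ⁻¹' chart 𝓕 := by
  ext z
  constructor
  · intro hz F hF
    have h1 : pull F ∈ vid (coef ⁻¹' chart 𝓕) := by
      intro z' hz'
      rw [eval_pull]
      exact hz' F hF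
    have h2 := hz _ h1
    rwa [eval_pull] at h2
  · intro hz F hF
    exact hF z hz

theorem isClosed_zero {k : ℕ} (I : Ideal (MvPolynomial (Fin k) ℂ)) :
    IsClosed {z : Fin k → ℂ | ∀ F ∈ I, MvPolynomial.eval z F = 0} := by
  have h1 : {z : Fin k → ℂ | ∀ F ∈ I, MvPolynomial.eval z F = 0} =
      ⋂ F ∈ I, {z : Fin k → ℂ | MvPolynomial.eval z F = 0} := by
    ext z
    simp only [Set.mem_iInter, Set.mem_ofPred_eq]
  rw [h1]
  refine isClosed_biInter fun F _ => ?_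
  exact isClosed_eq (MvPolynomial.continuous_eval F) continuous_const

/-! ### The factorials as a function of the partition -/

/-- the product of the factorials of the multiplicities, general form -/
noncomputable def stabG {α : Type} (s : Multiset α) : ℕ := by
  classical
  exact ∏ x ∈ s.toFinset, (s.count x)!

theorem stabG_map {α β : Type} (f : α → β) (hf : Function.Injective f) (s : Multiset α) :
    stabG (s.map f) = stabG s := by
  classical
  unfold stabG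
  rw [Multiset.toFinset_map, Finset.prod_image fun x _ y _ h => hf h]
  refine Finset.prod_congr rfl fun x _ => ?_
  rw [Multiset.count_map_eq_count' f s hf x]

theorem stab_eq (s : Multiset ℂ) : stab s = stabG s := by
  unfold stab stabG
  congr

/-- the number of permutations of a partition -/
noncomputable def wst {k : ℕ} (s : Setoid (Fin k)) : ℕ :=
  stabG (Finset.univ.val.map (Quotient.mk s))

theorem wst_ker {k : ℕ} (z : Fin k → ℂ) :
    wst (Setoid.ker z) = stab (Finset.univ.val.map z) := by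
  rw [stab_eq]
  unfold wst
  rw [← stabG_map (Setoid.kerLift z) (Setoid.kerLift_injective z), Multiset.map_map]
  rfl

/-! ### Permutations of the roots -/

/-- a polynomial with the distinct roots `ζ_j` is `coef z` with `z_j = ζ_j` -/
theorem exists_coef (h6 : T_MON) {k : ℕ} (J : Finset (Fin k)) (ζ : {j // j ∈ J} → ℂ)
    (hζ : Function.Injective ζ) (w : Fin k → ℂ) (hw : ∀ j, (mon w).IsRoot (ζ j)) :
    ∃ z : Fin k → ℂ, coef z = w ∧ ∀ j, z j.1 = ζ j := by
  classical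
  obtain ⟨m1, m2, m3, -, -, -⟩ := h6 k
  obtain ⟨z, hz⟩ := m3 w
  have h1 : ∀ j : {j // j ∈ J}, ∃ l : Fin k, z l = ζ j := by
    intro j
    have h2 : ζ j ∈ (mon w).roots := (Polynomial.mem_roots (m1 w).1.ne_zero).2 (hw j)
    rw [← hz, (m2 z).2] at h2
    obtain ⟨l, -, hl⟩ := Multiset.mem_map.1 h2
    exact ⟨l, hl⟩
  choose l hl using h1
  have hinj : Function.Injective l := fun a b hab => hζ (by rw [← hl a, ← hl b, hab])
  let e : {j // j ∈ J} ≃ {x // x ∈ Set.range l} := Equiv.ofInjective l hinj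
  let σ : Equiv.Perm (Fin k) := e.extendSubtype
  have hσ : ∀ j : {j // j ∈ J}, σ j.1 = l j := fun j => by
    have := Equiv.extendSubtype_apply_of_mem e j.1 j.2
    rw [show σ j.1 = e.extendSubtype j.1 from rfl, this]
    rfl
  refine ⟨z ∘ σ, ?_, fun j => ?_⟩
  · rw [← hz]
    funext i
    unfold coef
    congr 1
    exact Equiv.prod_comp σ fun i => (X - C (z i))
  · rw [Function.comp_apply, hσ, hl]

/-- almost all tuples are injective -/
theorem ae_injective {ι : Type} [Fintype ι] :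
    ∀ᵐ ζ : ι → ℂ, Function.Injective ζ := by
  classical
  have h1 : ∀ᵐ ζ : ι → ℂ, ∀ p : ι × ι, p.1 ≠ p.2 → ζ p.1 ≠ ζ p.2 := by
    rw [ae_all_iff]
    intro p
    by_cases hp : p.1 = p.2
    · exact Eventually.of_forall fun _ h => absurd hp h
    · have h2 : (MvPolynomial.X p.1 - MvPolynomial.X p.2 : MvPolynomial ι ℂ) ≠ 0 := by
        intro h
        exact hp (MvPolynomial.X_injective (sub_eq_zero.1 h))
      filter_upwards [Pool.Agent.H14.UDB.ae_fintype _ h2] with ζ hζ _ h3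
      apply hζ
      rw [map_sub, MvPolynomial.eval_X, MvPolynomial.eval_X, h3, sub_self]
  filter_upwards [h1] with ζ hζ a b hab
  by_contra h
  exact hζ (a, b) h hab

theorem pf_ALG (h1 : T_DMB) (h2 : T_PRC) (h3 : T_PRD) (h4 : T_DEG) (h5 : T_CO2)
    (h6 : T_MON) : T_ALG := by
  classical
  intro k m hmk 𝓕 hF hΛ
  set Y : Set (Fin k → ℂ) := coef ⁻¹' chart 𝓕 with hY
  set I := vid Y with hI
  have hYI : {z : Fin k → ℂ | ∀ F ∈ I, MvPolynomial.eval z F = 0} = Y := zero_vid 𝓕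
  have hdep : ∀ B : Finset (Fin k), B.card = m + 1 → ∃ h ∈ I, h ≠ 0 ∧ h.vars ⊆ B := by
    intro B hB
    obtain ⟨h, h7, h8, h9⟩ := h1 k m hmk 𝓕 hF hΛ B hB
    exact ⟨h, fun z hz => h9 z hz, h7, h8⟩
  have hcl : IsClosed Y := by
    rw [← hYI]
    exact isClosed_zero I
  have hcov : Covered m Y := by
    have := h2 k m I hdep
    rwa [hYI] at this
  -- the coordinates
  let J : Finset (Fin k) := (Finset.univ : Finset (Fin m)).map (Fin.castLEEmb hmk)
  have hJ : J.card = m := by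
    rw [Finset.card_map, Finset.card_univ, Fintype.card_fin]
  have hJm : ∀ i : Fin m, Fin.castLE hmk i ∈ J := fun i =>
    Finset.mem_map.2 ⟨i, Finset.mem_univ _, rfl⟩
  let e : Fin m ≃ {j // j ∈ J} := Equiv.ofBijective (fun i => ⟨Fin.castLE hmk i, hJm i⟩) (by
    constructor
    · intro a b hab
      have := congrArg Subtype.val hab
      exact Fin.castLE_injective hmk this
    · rintro ⟨j, hj⟩
      obtain ⟨i, -, hi⟩ := Finset.mem_map.1 hj
      exact ⟨i, Subtype.ext hi⟩)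
  obtain ⟨c, hc⟩ := h4 k m I hdep J hJ wst
  -- the number of points for almost all `ζ`
  have hdeg : ∀ᵐ ζ : {j // j ∈ J} → ℂ,
      {w | w ∈ chart 𝓕 ∧ ∀ j, (mon w).IsRoot (ζ j)}.Finite ∧
      ∑ᶠ w ∈ {w | w ∈ chart 𝓕 ∧ ∀ j, (mon w).IsRoot (ζ j)},
        ∏ j, (mon w).rootMultiplicity (ζ j) = c / (k - m)! := by
    filter_upwards [hc, ae_injective (ι := {j // j ∈ J})] with ζ hζ hinj
    have hset : {z : Fin k → ℂ | (∀ F ∈ I, MvPolynomial.eval z F = 0) ∧ ∀ j, z j.1 = ζ j} =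
        {z : Fin k → ℂ | coef z ∈ chart 𝓕 ∧ ∀ j, z j.1 = ζ j} := by
      ext z
      have h7 : (∀ F ∈ I, MvPolynomial.eval z F = 0) ↔ coef z ∈ chart 𝓕 := by
        have h8 : z ∈ {z : Fin k → ℂ | ∀ F ∈ I, MvPolynomial.eval z F = 0} ↔ z ∈ Y := by
          rw [hYI]
        exact h8
      simp only [Set.mem_ofPred_eq, h7]
    have hζ0 : {z : Fin k → ℂ | (∀ F ∈ I, MvPolynomial.eval z F = 0) ∧
        ∀ j, z j.1 = ζ j}.Finite ∧
        ∑ᶠ z ∈ {z : Fin k → ℂ | (∀ F ∈ I, MvPolynomial.eval z F = 0) ∧ ∀ j, z j.1 = ζ j},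
          wst (Setoid.ker z) = c := hζ
    rw [hset] at hζ0
    obtain ⟨hfin, hsum⟩ := hζ0
    have hfin2 : {w | w ∈ chart 𝓕 ∧ ∀ j, (mon w).IsRoot (ζ j)}.Finite := by
      refine (hfin.image coef).subset ?_
      rintro w ⟨hw1, hw2⟩
      obtain ⟨z, hz1, hz2⟩ := exists_coef h6 J ζ hinj w hw2
      refine ⟨z, ⟨?_, hz2⟩, hz1⟩
      rw [hz1]
      exact hw1
    refine ⟨hfin2, ?_⟩
    have h7 := (h5 k m hmk (chart 𝓕) ⟨J, hJ⟩ ζ hinj hfin2).2
    have h8 : ∑ᶠ z ∈ {z : Fin k → ℂ | coef z ∈ chart 𝓕 ∧ ∀ j, z j.1 = ζ j},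
        wst (Setoid.ker z) = ∑ᶠ z ∈ {z : Fin k → ℂ | coef z ∈ chart 𝓕 ∧ ∀ j, z j.1 = ζ j},
        stab (Finset.univ.val.map z) := by
      refine finsum_congr fun z => ?_
      rw [wst_ker]
    rw [h8] at hsum
    have h9 : c = (k - m)! * ∑ᶠ w ∈ {w | w ∈ chart 𝓕 ∧ ∀ j, (mon w).IsRoot (ζ j)},
        ∏ j, (mon w).rootMultiplicity (ζ j) := hsum.symm.trans h7
    show ∑ᶠ w ∈ {w | w ∈ chart 𝓕 ∧ ∀ j, (mon w).IsRoot (ζ j)},
        ∏ j, (mon w).rootMultiplicity (ζ j) = c / (k - m)!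
    rw [h9, Nat.mul_div_cancel_left _ (Nat.factorial_pos _)]
  refine ⟨c / (k - m)!, ⟨?_, ?_⟩⟩
  · obtain ⟨c', r, S, ψ, a1, a2, a3⟩ := h3 k m Y hcl hcov
    exact ⟨c', r, S, ψ, a1, a2, a3⟩
  · have h7 := (volume_measurePreserving_piCongrLeft (fun _ : {j // j ∈ J} => ℂ)
      e).quasiMeasurePreserving.ae hdeg
    filter_upwards [h7] with ζ hζ
    set ζ' : {j // j ∈ J} → ℂ := (MeasurableEquiv.piCongrLeft (fun _ : {j // j ∈ J} => ℂ) e) ζ
      with hζ'
    have h8 : ∀ i : Fin m, ζ' (e i) = ζ i := fun i =>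
      Equiv.piCongrLeft_apply_apply (fun _ : {j // j ∈ J} => ℂ) e ζ i
    have h9 : {w : Fin k → ℂ | w ∈ chart 𝓕 ∧ ∀ j, (mon w).IsRoot (ζ' j)} =
        {w : Fin k → ℂ | w ∈ chart 𝓕 ∧ ∀ j, (mon w).IsRoot (ζ j)} := by
      ext w
      simp only [Set.mem_ofPred_eq]
      refine and_congr_right fun _ => ⟨fun h i => ?_, fun h j => ?_⟩
      · rw [← h8]
        exact h (e i)
      · obtain ⟨i, rfl⟩ := e.surjective j
        rw [h8]
        exact h i
    have h10 : ∀ w : Fin k → ℂ, ∏ j, (mon w).rootMultiplicity (ζ' j) =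
        ∏ j, (mon w).rootMultiplicity (ζ j) := fun w => by
      rw [← Equiv.prod_comp e]
      exact Finset.prod_congr rfl fun i _ => by rw [h8]
    have hζ0 : {w : Fin k → ℂ | w ∈ chart 𝓕 ∧ ∀ j, (mon w).IsRoot (ζ' j)}.Finite ∧
        ∑ᶠ w ∈ {w : Fin k → ℂ | w ∈ chart 𝓕 ∧ ∀ j, (mon w).IsRoot (ζ' j)},
          ∏ j, (mon w).rootMultiplicity (ζ' j) = c / (k - m)! := hζ
    rw [h9] at hζ0
    refine ⟨hζ0.1, ?_⟩
    rw [← hζ0.2]
    refine finsum_congr fun w => ?_
    rw [h10]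
    rfl

end Pool.Agent.H7.UDB
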